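import Pool.Agent.P.MP_87eb76_gt.ZCell

namespace Pool.Agent.Results.MP_87eb76_gt.TychonoffZFC

/-- There is a zero-dimensional Tychonoff space that is cellular-Lindelöf, has a regular G-delta
diagonal and has exactly `2 ^ 𝔠` points. -/
theorem result : ∃ (X : Type) (_ : TopologicalSpace X), T35Space X ∧
    TopologicalSpace.IsTopologicalBasis {U : Set X | IsClopen U} ∧
    (∀ 𝒰 : Set (Set X), (∀ U ∈ 𝒰, IsOpen U ∧ U.Nonempty) → 𝒰.PairwiseDisjoint id →
      ∃ L : Set X, IsLindelof L ∧ ∀ U ∈ 𝒰, (L ∩ U).Nonempty) ∧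
    (∃ W : ℕ → Set (X × X), (∀ n, IsOpen (W n) ∧ Set.diagonal X ⊆ W n) ∧
      (⋂ n, closure (W n)) = Set.diagonal X) ∧
    Cardinal.mk X = 2 ^ Cardinal.continuum :=
  Pool.Agent.P.MP_87eb76_gt.Z.main

end Pool.Agent.Results.MP_87eb76_gt.TychonoffZFC
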